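import Pool.Agent.MP_ccb05f_an.Final
import Pool.Agent.MP_ccb05f_an.G2.Final

set_option autoImplicit false

open MeasureTheory
open scoped ENNReal NNReal

namespace Pool.Agent.Results.MP_ccb05f_an.LSCIffTwo

open Pool.Agent.MP_ccb05f_an

/-- For `d ≥ 2` the map `f ↦ H^d(graph f)` is lower semicontinuous on the homeomorphisms of
`[0,1]^d` with the topology of uniform convergence if and only if `d = 2`. -/
theorem result (d : ℕ) (hd : 2 ≤ d) :
    (∀ (c : ℝ) (f : Cube d ≃ₜ Cube d), (c : EReal) < (μH[(d : ℝ)] (graph f) : EReal) →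
      ∃ ε : ℝ, 0 < ε ∧ ∀ g : Cube d ≃ₜ Cube d, (∀ x, dist (f x) (g x) < ε) →
        (c : EReal) < (μH[(d : ℝ)] (graph g) : EReal)) ↔ d = 2 := by
  constructor
  · intro h
    by_contra hne
    obtain ⟨m, rfl⟩ : ∃ m, d = m + 3 := ⟨d - 3, by omega⟩
    obtain ⟨c, f, hcf, hf⟩ := main m
    have e : ((c : ℝ) : EReal) = ((c : ℝ≥0∞) : EReal) := rfl
    obtain ⟨ε, hε, hg⟩ := h (c : ℝ) f (by
      rw [e]
      exact EReal.coe_ennreal_lt_coe_ennreal_iff.2 hcf)
    obtain ⟨g, hg1, hg2⟩ := hf ε hε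
    have h1 := hg g hg1
    have h2 : ((μH[((m + 3 : ℕ) : ℝ)] (graph g) : ℝ≥0∞) : EReal) ≤ ((c : ℝ≥0∞) : EReal) :=
      EReal.coe_ennreal_le_coe_ennreal_iff.2 hg2
    rw [e] at h1
    exact absurd h1 (not_lt.2 h2)
  · rintro rfl c f hcf
    rcases lt_or_ge c 0 with hc | hc
    · refine ⟨1, one_pos, fun g _ => ?_⟩
      refine lt_of_lt_of_le (b := ((0 : ℝ) : EReal)) (by exact_mod_cast hc) ?_
      exact EReal.coe_ennreal_nonneg _
    · have e : ((ENNReal.ofReal c : ℝ≥0∞) : EReal) = (c : EReal) := by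
        rw [EReal.coe_ennreal_ofReal, max_eq_left hc]
      rw [← e, EReal.coe_ennreal_lt_coe_ennreal_iff] at hcf
      obtain ⟨ε, hε, hg⟩ := G2.lsc_two (ENNReal.ofReal c) f (by simpa using hcf)
      refine ⟨ε, hε, fun g hfg => ?_⟩
      rw [← e, EReal.coe_ennreal_lt_coe_ennreal_iff]
      simpa using hg g hfg

end Pool.Agent.Results.MP_ccb05f_an.LSCIffTwo
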